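import Mathlib

namespace Pool.Agent.Results.MP_cb2649_nt.Counter

open Finset

/-- `G k = gcd` of the binomial coefficients `C(jk, k)` for `j = 2, ..., k+1`. -/
def G (k : ℕ) : ℕ := (Icc 2 (k + 1)).gcd fun j => (j * k).choose k

/-- `P k` is the largest of the prime powers `p ^ e` exactly dividing `k`. -/
def P (k : ℕ) : ℕ := k.primeFactors.sup fun p => p ^ k.factorization p

theorem result : ¬ ∀ k : ℕ, 2 ≤ k → (G k = 1 ↔ k / P k > P k) := by
  intro h
  have hP : P 30 = 5 := by
    have h30 : (30 : ℕ).primeFactors = {2, 3, 5} := by simp [Nat.primeFactors]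
    have f2 : (30 : ℕ).factorization 2 = 1 := by
      rw [Nat.factorization_def _ (by norm_num)]; decide +kernel
    have f3 : (30 : ℕ).factorization 3 = 1 := by
      rw [Nat.factorization_def _ (by norm_num)]; decide +kernel
    have f5 : (30 : ℕ).factorization 5 = 1 := by
      rw [Nat.factorization_def _ (by norm_num)]; decide +kernel
    simp [P, h30, f2, f3, f5]
  have hG : 31 ∣ G 30 := by
    apply Finset.dvd_gcd
    intro j hj
    rw [Nat.choose_eq_descFactorial_div_factorial]
    revert j
    decide +kernel
  have := (h 30 (by norm_num)).2 (by rw [hP]; norm_num)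
  rw [this] at hG
  norm_num at hG

end Pool.Agent.Results.MP_cb2649_nt.Counter
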